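import Pool.Agent.Helper48_CON.DAux

/-!
Squad CON, module D_IND.
-/

noncomputable section

namespace Pool.Agent.CON.H48

open Pool.Agent.H25Cong Pool.Agent.CON

/-- k independent vectors modulo p in the kernel of two linear functionals -/
lemma ker_ind (p k : ℕ) (hp : p.Prime) (α β : Fin (k + 2) → ℤ) :
    ∃ z : Fin k → Fin (k + 2) → ℤ, (∀ l, (p : ℤ) ∣ ∑ i, z l i * α i) ∧
      (∀ l, (p : ℤ) ∣ ∑ i, z l i * β i) ∧
      ∀ t : Fin k → ℤ, (∀ i, (p : ℤ) ∣ ∑ l, t l * z l i) → ∀ l, (p : ℤ) ∣ t l := by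
  have : Fact p.Prime := ⟨hp⟩
  let φ : (Fin (k + 2) → ZMod p) →ₗ[ZMod p] (Fin 2 → ZMod p) :=
    Matrix.mulVecLin (Matrix.of ![fun i => (α i : ZMod p), fun i => (β i : ZMod p)])
  have h1 := LinearMap.finrank_range_add_finrank_ker φ
  have h2 : Module.finrank (ZMod p) (LinearMap.range φ) ≤ 2 := by
    refine le_trans (Submodule.finrank_le _) ?_
    rw [Module.finrank_fin_fun]
  rw [Module.finrank_fin_fun] at h1
  have h3 : k ≤ Module.finrank (ZMod p) (LinearMap.ker φ) := by omega
  let c := Module.finBasis (ZMod p) (LinearMap.ker φ)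
  let w : Fin k → (Fin (k + 2) → ZMod p) := fun l => (c (Fin.castLE h3 l) : Fin (k + 2) → ZMod p)
  have hw : LinearIndependent (ZMod p) w := by
    have := c.linearIndependent.comp _ (Fin.castLE_injective h3)
    exact this.map' (LinearMap.ker φ).subtype (Submodule.ker_subtype _)
  have hk : ∀ l, φ (w l) = 0 := fun l => (c (Fin.castLE h3 l)).2
  refine ⟨fun l i => ((w l i).val : ℤ), ?_, ?_, ?_⟩
  · intro l
    rw [← ZMod.intCast_zmod_eq_zero_iff_dvd]
    have := congrFun (hk l) 0
    simp only [φ, Matrix.mulVecLin_apply, Matrix.mulVec, dotProduct, Matrix.of_apply,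
      Matrix.cons_val_zero, Pi.zero_apply] at this
    push_cast
    rw [← this]
    refine Finset.sum_congr rfl fun i _ => ?_
    rw [ZMod.natCast_zmod_val]
    ring
  · intro l
    rw [← ZMod.intCast_zmod_eq_zero_iff_dvd]
    have := congrFun (hk l) 1
    simp only [φ, Matrix.mulVecLin_apply, Matrix.mulVec, dotProduct, Matrix.of_apply,
      Matrix.cons_val_one, Matrix.cons_val_zero, Pi.zero_apply] at this
    push_cast
    rw [← this]
    refine Finset.sum_congr rfl fun i _ => ?_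
    rw [ZMod.natCast_zmod_val]
    ring
  · intro t ht l
    rw [← ZMod.intCast_zmod_eq_zero_iff_dvd]
    rw [Fintype.linearIndependent_iff] at hw
    refine hw (fun l => (t l : ZMod p)) ?_ l
    funext i
    have := (ZMod.intCast_zmod_eq_zero_iff_dvd _ p).2 (ht i)
    push_cast at this
    rw [Finset.sum_apply, Pi.zero_apply, ← this]
    refine Finset.sum_congr rfl fun j _ => ?_
    rw [Pi.smul_apply, smul_eq_mul, ZMod.natCast_zmod_val]

theorem d_ind : D_IND := by
  intro n L e f p k hL he hf hee hff hef hp ⟨c, hc, hind⟩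
  choose α hα using fun i => hL.int (c i) (hc i) e he
  choose β hβ using fun i => hL.int (c i) (hc i) f hf
  obtain ⟨z, hz1, hz2, hz3⟩ := ker_ind p k hp α β
  let m : Fin (k + 2) → Mef L e f := fun i => ⟨pr e f (c i), pr_mem hL he hf hee hff hef (hc i)⟩
  refine ⟨fun l => ∑ i, z l i • m i, fun _ => AddSubgroup.mem_top _, ?_⟩
  intro t ht
  apply hz3 t
  let Z : Fin (k + 2) → ℤ := fun i => ∑ l, t l * z l i
  apply hind Z
  intro x hx
  -- the vector
  have hsum : (∑ l, t l • (∑ i, z l i • m i) : Mef L e f) = ∑ i, Z i • m i := by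
    simp only [Finset.smul_sum, Z, Finset.sum_smul, smul_smul]
    rw [Finset.sum_comm]
  have hα' : (p : ℤ) ∣ ∑ i, Z i * α i := by
    have : ∑ i, Z i * α i = ∑ l, t l * ∑ i, z l i * α i := by
      simp only [Z, Finset.sum_mul, Finset.mul_sum]
      rw [Finset.sum_comm]
      refine Finset.sum_congr rfl fun l _ => Finset.sum_congr rfl fun i _ => by ring
    rw [this]
    exact Finset.dvd_sum fun l _ => Dvd.dvd.mul_left (hz1 l) _
  have hβ' : (p : ℤ) ∣ ∑ i, Z i * β i := by
    have : ∑ i, Z i * β i = ∑ l, t l * ∑ i, z l i * β i := by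
      simp only [Z, Finset.sum_mul, Finset.mul_sum]
      rw [Finset.sum_comm]
      refine Finset.sum_congr rfl fun l _ => Finset.sum_congr rfl fun i _ => by ring
    rw [this]
    exact Finset.dvd_sum fun l _ => Dvd.dvd.mul_left (hz2 l) _
  obtain ⟨j1, hj1⟩ := hα'
  obtain ⟨j2, hj2⟩ := hβ'
  obtain ⟨a, ha⟩ := hL.int x hx f hf
  obtain ⟨b, hb⟩ := hL.int x hx e he
  have hy := pr_mem hL he hf hee hff hef hx
  obtain ⟨j3, hj3⟩ := ht ⟨pr e f x, hy⟩ (AddSubgroup.mem_top _)
  rw [hsum] at hj3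
  have hj3' : B (∑ i, (Z i : ℝ) • pr e f (c i)) (pr e f x) = p * j3 := by
    have h1 := bG_cast hL (∑ i, Z i • m i) ⟨pr e f x, hy⟩
    rw [hj3] at h1
    have h2 : ((∑ i, Z i • m i : Mef L e f) : V n) = ∑ i, (Z i : ℝ) • pr e f (c i) := by
      rw [AddSubgroup.val_finsetSum]
      refine Finset.sum_congr rfl fun i _ => ?_
      rw [Int.cast_smul_eq_zsmul]
      rfl
    rw [h2] at h1
    rw [← h1]
    push_cast
    ring
  have e1 : B (∑ i, (Z i : ℝ) • c i) e = p * j1 := by
    rw [B_sum_left]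
    have : (∑ i, B ((Z i : ℝ) • c i) e) = ((∑ i, Z i * α i : ℤ) : ℝ) := by
      push_cast
      refine Finset.sum_congr rfl fun i _ => ?_
      rw [B_smul_left, hα]
    rw [this, hj1]
    push_cast
    ring
  have e2 : B (∑ i, (Z i : ℝ) • c i) f = p * j2 := by
    rw [B_sum_left]
    have : (∑ i, B ((Z i : ℝ) • c i) f) = ((∑ i, Z i * β i : ℤ) : ℝ) := by
      push_cast
      refine Finset.sum_congr rfl fun i _ => ?_
      rw [B_smul_left, hβ]
    rw [this, hj2]
    push_cast
    ring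
  have e3 : B (∑ i, (Z i : ℝ) • c i) (pr e f x) = p * j3 := by
    rw [← hj3', B_sum_left, B_sum_left]
    refine Finset.sum_congr rfl fun i _ => ?_
    rw [B_smul_left, B_smul_left]
    congr 1
    conv_lhs => rw [eq_pr e f (c i)]
    rw [B_sub_left, B_sub_left, B_smul_left, B_smul_left, B_comm e, B_comm f, hy.2.1, hy.2.2]
    ring
  refine ⟨j3 - a * j1 - b * j2, ?_⟩
  rw [eq_pr e f x, B_sub_right, B_sub_right, B_smul_right, B_smul_right, e1, e2, e3, ha, hb]
  push_cast
  ring

end Pool.Agent.CON.H48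

end
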