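import Pool.Agent.Helper48_CON.DAux

/-!
Squad CON, module D_PD.
-/

noncomputable section

namespace Pool.Agent.CON.H48

open Pool.Agent.H25Cong Pool.Agent.CON

lemma isPD {n : ℕ} {L : Submodule ℤ (V n)} {e f : V n} (hL : EvenLat L)
    (hee : B e e = 0) (hff : B f f = 0) (hef : B e f = -1) : PD (bG (Mef L e f)) := by
  have hfe : B f e = -1 := by rw [B_comm]; exact hef
  constructor
  · intro x y z
    have : ((bG (Mef L e f) (x + y) z : ℤ) : ℝ) =
        ((bG (Mef L e f) x z + bG (Mef L e f) y z : ℤ) : ℝ) := by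
      rw [Int.cast_add, bG_cast hL, bG_cast hL, bG_cast hL]
      exact B_add_left _ _ _
    exact_mod_cast this
  · intro x y
    have : ((bG (Mef L e f) x y : ℤ) : ℝ) = ((bG (Mef L e f) y x : ℤ) : ℝ) := by
      rw [bG_cast hL, bG_cast hL]
      exact B_comm _ _
    exact_mod_cast this
  · intro x
    obtain ⟨k, hk⟩ := hL.even x x.2.1
    refine ⟨k, ?_⟩
    have : ((bG (Mef L e f) x x : ℤ) : ℝ) = ((2 * k : ℤ) : ℝ) := by
      rw [bG_cast hL, hk]
      push_cast
      ring
    exact_mod_cast this
  · intro x hx
    have hv : B (e + f) (e + f) < 0 := by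
      rw [B_add_left, B_add_right, B_add_right, hee, hff, hef, hfe]
      norm_num
    have hxv : B (x : V n) (e + f) = 0 := by
      rw [B_add_right, x.2.2.1, x.2.2.2, add_zero]
    have h1 := perp_nonneg hv hxv
    have h2 : B (x : V n) (x : V n) ≠ 0 := by
      intro h
      exact hx (Subtype.ext (perp_eq_zero hv hxv h))
    have h3 : (0 : ℝ) < ((bG (Mef L e f) x x : ℤ) : ℝ) := by
      rw [bG_cast hL]
      exact lt_of_le_of_ne h1 (Ne.symm h2)
    exact_mod_cast h3

lemma fin_Mef {n : ℕ} {L : Submodule ℤ (V n)} (hL : IsLat L) (e f : V n) :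
    Module.Finite ℤ (Mef L e f) := by
  obtain ⟨b, hb⟩ := hL
  have : Module.Finite ℤ L := by
    rw [hb]
    exact Module.Finite.span_of_finite ℤ (Set.finite_range b)
  let i : Mef L e f →ₗ[ℤ] L :=
    (AddMonoidHom.mk' (fun x : Mef L e f => (⟨x.1, x.2.1⟩ : L)) (fun _ _ => rfl)).toIntLinearMap
  exact Module.Finite.of_injective i (fun x y h => by
    have h2 : ((i x : L) : V n) = ((i y : L) : V n) := by rw [h]
    exact Subtype.ext h2)

theorem d_pd : D_PD := by
  intro n L e f hL he hf hee hff hef
  refine ⟨isPD hL hee hff hef, fin_Mef hL.lat e f, ?_⟩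
  have := fin_Mef hL.lat e f
  have : Module.IsTorsionFree ℤ (Mef L e f) := by
    infer_instance
  let c := Module.finBasis ℤ (Mef L e f)
  have hr : n - 1 ≤ Module.finrank ℤ (Mef L e f) := by
    set r := Module.finrank ℤ (Mef L e f) with hr
    let s : Finset (V n) := insert e (insert f (Finset.univ.image fun i => ((c i : Mef L e f) : V n)))
    have hs : s.card ≤ r + 2 := by
      have h1 : (Finset.univ.image fun i => ((c i : Mef L e f) : V n)).card ≤ r := by
        refine le_trans Finset.card_image_le ?_
        rw [Finset.card_univ, Fintype.card_fin]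
      have h2 := Finset.card_insert_le f (Finset.univ.image fun i => ((c i : Mef L e f) : V n))
      have h3 := Finset.card_insert_le e (insert f (Finset.univ.image fun i => ((c i : Mef L e f) : V n)))
      exact le_trans h3 (Nat.succ_le_succ (le_trans h2 (Nat.succ_le_succ h1)))
    have hM : ∀ x : Mef L e f, (x : V n) ∈ Submodule.span ℝ (s : Set (V n)) := by
      intro x
      have hx := c.sum_repr x
      rw [← hx]
      have h0 : ((∑ i, (c.repr x) i • c i : Mef L e f) : V n) =
          ∑ i, ((c.repr x) i : ℝ) • ((c i : Mef L e f) : V n) := by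
        rw [AddSubgroup.val_finsetSum]
        refine Finset.sum_congr rfl fun i _ => ?_
        rw [Int.cast_smul_eq_zsmul]
        rfl
      rw [h0]
      refine Submodule.sum_mem _ fun i _ => Submodule.smul_mem _ _ (Submodule.subset_span ?_)
      simp [s]
    have heS : e ∈ Submodule.span ℝ (s : Set (V n)) := Submodule.subset_span (by simp [s])
    have hfS : f ∈ Submodule.span ℝ (s : Set (V n)) := Submodule.subset_span (by simp [s])
    have hLS : ∀ x ∈ L, x ∈ Submodule.span ℝ (s : Set (V n)) := by
      intro x hx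
      rw [eq_pr e f x]
      exact Submodule.sub_mem _ (Submodule.sub_mem _
        (hM ⟨pr e f x, pr_mem hL he hf hee hff hef hx⟩) (Submodule.smul_mem _ _ heS))
        (Submodule.smul_mem _ _ hfS)
    obtain ⟨b, hb⟩ := hL.lat
    have htop : Submodule.span ℝ (s : Set (V n)) = ⊤ := by
      rw [eq_top_iff, ← b.span_eq, Submodule.span_le]
      rintro _ ⟨i, rfl⟩
      apply hLS
      rw [hb]
      exact Submodule.subset_span ⟨i, rfl⟩
    have hfr := finrank_span_finset_le_card (R := ℝ) s
    rw [Set.finrank, htop, finrank_top, Module.finrank_fin_fun] at hfr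
    omega
  exact ⟨fun i => c (Fin.castLE hr i), c.linearIndependent.comp _ (Fin.castLE_injective hr)⟩

end Pool.Agent.CON.H48

end
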