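import Pool.Agent.Helper25_CON.Stmts

/-!
Squad CON: auxiliary lemmas for part D (the lattice orthogonal to a hyperbolic pair).
-/

noncomputable section

namespace Pool.Agent.CON.H48

open Pool.Agent.H25Cong Pool.Agent.CON

variable {n : ℕ} {L : Submodule ℤ (V n)} {e f : V n}

lemma bG_cast (hL : EvenLat L) (x y : Mef L e f) :
    ((bG (Mef L e f) x y : ℤ) : ℝ) = B (x : V n) (y : V n) := by
  obtain ⟨k, hk⟩ := hL.int x x.2.1 y y.2.1
  unfold bG
  rw [hk, Int.floor_intCast]

lemma rsm {x : V n} (hx : x ∈ L) (k : ℤ) : (k : ℝ) • x ∈ L := by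
  rw [Int.cast_smul_eq_zsmul]
  exact L.smul_mem k hx

/-- the projection to the orthogonal complement of e, f -/
def pr (e f x : V n) : V n := x + (B x f) • e + (B x e) • f

lemma pr_mem (hL : EvenLat L) (he : e ∈ L) (hf : f ∈ L) (hee : B e e = 0) (hff : B f f = 0)
    (hef : B e f = -1) {x : V n} (hx : x ∈ L) : pr e f x ∈ Mef L e f := by
  have hfe : B f e = -1 := by rw [B_comm]; exact hef
  obtain ⟨a, ha⟩ := hL.int x hx f hf
  obtain ⟨b, hb⟩ := hL.int x hx e he
  refine ⟨?_, ?_, ?_⟩
  · unfold pr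
    rw [ha, hb]
    exact L.add_mem (L.add_mem hx (rsm he a)) (rsm hf b)
  · unfold pr
    rw [B_add_left, B_add_left, B_smul_left, B_smul_left, hee, hfe]
    ring
  · unfold pr
    rw [B_add_left, B_add_left, B_smul_left, B_smul_left, hff, hef]
    ring

lemma eq_pr (e f x : V n) : x = pr e f x - (B x f) • e - (B x e) • f := by
  unfold pr
  abel

end Pool.Agent.CON.H48

end
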